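import Pool.Agent.helper50.MA.Spec2

/-! Project ma, module S7: Stokes formula on the compact surface (from S1 S2 S3 S4 S5 B7 C2). -/

set_option autoImplicit false

open MeasureTheory Set Filter Topology Complex
open scoped ContDiff Real

namespace MAP

/-- the density of a function which vanishes near the point -/
theorem S7_dens_zero (u v : C2 → ℝ) (y : C2) (h : u =ᶠ[𝓝 y] fun _ => (0 : ℝ)) : dens u v y = 0 := by
  have h1 : fderiv ℝ u =ᶠ[𝓝 y] fun _ => 0 := by
    have := h.fderiv (𝕜 := ℝ)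
    refine this.trans (Eventually.of_forall fun z => ?_)
    simp
  have h2 : fderiv ℝ (fderiv ℝ u) y = 0 := by
    rw [h1.fderiv_eq]
    simp
  have h3 : ∀ ξ η : C2, D2 u y ξ η = 0 := by
    intro ξ η
    unfold D2
    rw [h2]
    rfl
  have h4 : ∀ ξ : C2, lap u y ξ = 0 := by
    intro ξ
    unfold lap
    rw [h3, h3, add_zero]
  have h5 : hB u y = 0 := by
    unfold hB
    rw [h3, h3, add_zero]
  have h6 : hB' u y = 0 := by
    unfold hB'
    rw [h3, h3, sub_zero]
  unfold dens hA hC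
  rw [h4, h4, h5, h6]
  simp

section
variable {X : Type} [TopologicalSpace X] (K : KS X)

theorem S7_cd {f : X → ℝ} (hf : K.Smo f) (i : Fin K.n) {y : C2} (hy : y ∈ (K.e i).target) :
    ContDiffAt ℝ 2 (K.lo i f) y :=
  ((hf i).contDiffAt ((K.e i).open_target.mem_nhds hy)).of_le (by norm_cast)

theorem S7_cdp {f : X → ℝ} (hf : K.Smo f) (i : Fin K.n) {y : C2} (hy : y ∈ (K.e i).target) :
    ContDiffAt ℝ 2 (K.pot i f) y :=
  (((K.ρ_smooth i).contDiffAt ((K.e i).open_target.mem_nhds hy)).of_le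
    (by norm_cast)).add (S7_cd K hf i hy)

theorem S7_dens_sub (hC2 : C2_stmt) {f f' : X → ℝ} (hf : K.Smo f) (hf' : K.Smo f') (i : Fin K.n)
    (v : C2 → ℝ) {y : C2} (hy : y ∈ (K.e i).target) :
    dens (K.pot i f) v y - dens (K.pot i f') v y = dens (K.lo i (fun x => f x - f' x)) v y := by
  have h := (hC2.2.2.2.2.1 (K.pot i f) (K.pot i f') v y 1 (-1) (S7_cdp K hf i hy) (S7_cdp K hf' i hy)).2
  have e : (fun y => 1 * K.pot i f y + -1 * K.pot i f' y) = K.lo i (fun x => f x - f' x) := by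
    funext z
    unfold KS.pot KS.lo
    ring
  rw [e] at h
  rw [h]
  ring

theorem S7_dens_add (hC2 : C2_stmt) {f f' : X → ℝ} (hf : K.Smo f) (hf' : K.Smo f') (i : Fin K.n)
    (v : C2 → ℝ) {y : C2} (hy : y ∈ (K.e i).target) :
    dens (K.lo i (fun x => f x + f' x)) v y = dens (K.lo i f) v y + dens (K.lo i f') v y := by
  have h := (hC2.2.2.2.2.1 (K.lo i f) (K.lo i f') v y 1 1 (S7_cd K hf i hy) (S7_cd K hf' i hy)).2
  have e : (fun y => 1 * K.lo i f y + 1 * K.lo i f' y) = K.lo i (fun x => f x + f' x) := by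
    funext z
    unfold KS.lo
    ring
  rw [e] at h
  rw [h]
  ring

theorem S7_dens_scale (hC2 : C2_stmt) {φ : X → ℝ} (C : ℝ) (hC : C ≠ 0)
    (hφ : K.Smo (fun x => φ x / C)) (h0 : K.Smo (fun _ => 0)) (i : Fin K.n)
    (v : C2 → ℝ) {y : C2} (hy : y ∈ (K.e i).target) :
    C * (dens (K.pot i (fun x => φ x / C)) v y - dens (K.pot i (fun _ => 0)) v y) =
      dens (K.lo i φ) v y := by
  rw [S7_dens_sub K hC2 hφ h0 i v hy]
  have hs : ContDiffAt ℝ 2 (K.lo i (fun x => φ x / C - 0)) y := by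
    have := S7_cd K hφ i hy
    simpa using this
  have h := (hC2.2.2.2.2.1 (K.lo i (fun x => φ x / C - 0)) (K.lo i (fun x => φ x / C - 0)) v y C 0
    hs hs).2
  have e : (fun y => C * K.lo i (fun x => φ x / C - 0) y + 0 * K.lo i (fun x => φ x / C - 0) y) =
      K.lo i φ := by
    funext z
    unfold KS.lo
    field_simp
    ring
  rw [e] at h
  rw [h]
  ring

end

section
variable {X : Type} [TopologicalSpace X] [CompactSpace X] [T2Space X] [SecondCountableTopology X]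
  [MeasurableSpace X] [BorelSpace X] (K : KS X)

theorem S7_zero_mem (hS3 : S3_stmt) : (fun _ : X => (0 : ℝ)) ∈ K.PS := by
  refine ⟨(hS3 X K).2.2.1 0, fun i y hy ξ => ?_⟩
  have e : K.pot i (fun _ => (0 : ℝ)) = K.ρ i := by
    funext z
    unfold KS.pot
    ring
  rw [e]
  by_cases hξ : ξ = 0
  · subst hξ
    unfold lap D2
    simp
  · exact (K.ρ_pos i y hy ξ hξ).le

theorem S7_isM (hS1 : S1_stmt) {f g : X → ℝ} (hf : f ∈ K.PS) (hg : g ∈ K.PS) :
    K.IsM f g (K.Ms f g) := by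
  have h := hS1 X K f hf g hg
  unfold KS.Ms
  rw [dif_pos h]
  exact Classical.choose_spec h

theorem S7_chart (hS1 : S1_stmt) (hS2 : S2_stmt) {f g : X → ℝ} (hf : f ∈ K.PS) (hg : g ∈ K.PS)
    (i : Fin K.n) {ψ : X → ℝ} (hm : Measurable ψ) (hb : ∃ B : ℝ, ∀ x, |ψ x| ≤ B)
    (hv : ∀ x, x ∉ (K.e i).source → ψ x = 0) :
    IntegrableOn (fun y => ψ ((K.e i).symm y) * dens (K.pot i f) (K.pot i g) y) (K.e i).target ∧
      ∫ x, ψ x ∂K.Ms f g =
        ∫ y in (K.e i).target, ψ ((K.e i).symm y) * dens (K.pot i f) (K.pot i g) y :=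
  (hS2 X K f hf g hg _ (S7_isM K hS1 hf hg)).2 i ψ hm hb hv

theorem S7_diff (hS1 : S1_stmt) (hS2 : S2_stmt) (hC2 : C2_stmt) {f f' g : X → ℝ} (hf : f ∈ K.PS)
    (hf' : f' ∈ K.PS) (hg : g ∈ K.PS)
    (i : Fin K.n) {ψ : X → ℝ} (hm : Measurable ψ) (hb : ∃ B : ℝ, ∀ x, |ψ x| ≤ B)
    (hv : ∀ x, x ∉ (K.e i).source → ψ x = 0) :
    ∫ x, ψ x ∂K.Ms f g - ∫ x, ψ x ∂K.Ms f' g =
      ∫ y in (K.e i).target, ψ ((K.e i).symm y) *
        dens (K.lo i (fun x => f x - f' x)) (K.pot i g) y := by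
  obtain ⟨i1, e1⟩ := S7_chart K hS1 hS2 hf hg i hm hb hv
  obtain ⟨i2, e2⟩ := S7_chart K hS1 hS2 hf' hg i hm hb hv
  rw [e1, e2, ← integral_sub i1 i2]
  refine setIntegral_congr_fun (K.e i).open_target.measurableSet fun y hy => ?_
  rw [← S7_dens_sub K hC2 hf.1 hf'.1 i _ hy]
  ring

/-- the functional in chart `i` -/
theorem S7_scale (hS1 : S1_stmt) (hS2 : S2_stmt) (hS3 : S3_stmt) (hC2 : C2_stmt) {φ g : X → ℝ}
    (hg : g ∈ K.PS) (C : ℝ) (hC : C ≠ 0) (hφ : (fun x => φ x / C) ∈ K.PS)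
    (i : Fin K.n) {ψ : X → ℝ} (hm : Measurable ψ) (hb : ∃ B : ℝ, ∀ x, |ψ x| ≤ B)
    (hv : ∀ x, x ∉ (K.e i).source → ψ x = 0) :
    IntegrableOn (fun y => ψ ((K.e i).symm y) * dens (K.lo i φ) (K.pot i g) y) (K.e i).target ∧
    C * (∫ x, ψ x ∂K.Ms (fun x => φ x / C) g - ∫ x, ψ x ∂K.Ms (fun _ => 0) g) =
      ∫ y in (K.e i).target, ψ ((K.e i).symm y) * dens (K.lo i φ) (K.pot i g) y := by
  have h0 := S7_zero_mem K hS3
  obtain ⟨i1, e1⟩ := S7_chart K hS1 hS2 hφ hg i hm hb hv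
  obtain ⟨i2, e2⟩ := S7_chart K hS1 hS2 h0 hg i hm hb hv
  have hpt : ∀ y ∈ (K.e i).target,
      C * (ψ ((K.e i).symm y) * dens (K.pot i fun x => φ x / C) (K.pot i g) y -
        ψ ((K.e i).symm y) * dens (K.pot i fun _ => 0) (K.pot i g) y) =
      ψ ((K.e i).symm y) * dens (K.lo i φ) (K.pot i g) y := by
    intro y hy
    rw [← S7_dens_scale K hC2 C hC hφ.1 h0.1 i _ hy]
    ring
  constructor
  · have h3 : IntegrableOn (fun y => C * (ψ ((K.e i).symm y) *
        dens (K.pot i fun x => φ x / C) (K.pot i g) y -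
        ψ ((K.e i).symm y) * dens (K.pot i fun _ => 0) (K.pot i g) y)) (K.e i).target :=
      (i1.sub i2).const_mul C
    exact h3.congr_fun (fun y hy => hpt y hy) (K.e i).open_target.measurableSet
  · rw [e1, e2, ← integral_sub i1 i2, ← integral_const_mul]
    exact setIntegral_congr_fun (K.e i).open_target.measurableSet fun y hy => hpt y hy

/-- splitting an integral with a partition of unity -/
theorem S7_pou (ν : Measure X) [IsFiniteMeasure ν] (χ : Fin K.n → X → ℝ)
    (hχm : ∀ i, Measurable (χ i)) (hχ0 : ∀ i x, 0 ≤ χ i x) (hχ1 : ∀ x, ∑ i, χ i x = 1)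
    {ψ : X → ℝ} (hm : Measurable ψ) (hb : ∃ B : ℝ, ∀ x, |ψ x| ≤ B) :
    ∫ x, ψ x ∂ν = ∑ k, ∫ x, χ k x * ψ x ∂ν := by
  obtain ⟨B, hB⟩ := hb
  rw [← integral_finsetSum]
  · refine integral_congr_ae (Eventually.of_forall fun x => ?_)
    simp only
    rw [← Finset.sum_mul, hχ1 x, one_mul]
  · intro k _
    refine Integrable.of_bound ((hχm k).mul hm).aestronglyMeasurable B
      (Eventually.of_forall fun x => ?_)
    have h1 : χ k x ≤ 1 := by
      rw [← hχ1 x]
      exact Finset.single_le_sum (fun i _ => hχ0 i x) (Finset.mem_univ k)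
    rw [Real.norm_eq_abs, abs_mul, abs_of_nonneg (hχ0 k x)]
    have h2 := mul_le_mul h1 (hB x) (abs_nonneg _) zero_le_one
    simpa using h2

end

theorem S7 (hS1 : S1_stmt) (hS2 : S2_stmt) (hS3 : S3_stmt) (hS4 : S4_stmt) (hS5 : S5_stmt)
    (hB7 : B7_stmt) (hC2 : C2_stmt) : S7_stmt := by
  intro X _ _ _ _ _ _ K f hf f' hf' g hg h hh
  obtain ⟨χ, hχs, hχ0, hχ1, hχsupp⟩ := hS4 X K
  have hS3' := hS3 X K
  have hcont : ∀ f : X → ℝ, K.Smo f → Continuous f := hS3'.2.2.2.1
  have hbdd : ∀ f : X → ℝ, Continuous f → ∃ B : ℝ, ∀ x, |f x| ≤ B := by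
    intro f hf
    obtain ⟨B, hB⟩ := isCompact_univ.exists_bound_of_continuousOn hf.continuousOn
    exact ⟨B, fun x => hB x (mem_univ x)⟩
  have hχm : ∀ i, Measurable (χ i) := fun i => (hcont _ (hχs i)).measurable
  have hχle : ∀ i x, χ i x ≤ 1 := by
    intro i x
    rw [← hχ1 x]
    exact Finset.single_le_sum (fun i _ => hχ0 i x) (Finset.mem_univ i)
  have h0 := S7_zero_mem K hS3
  -- the difference
  set d : X → ℝ := fun x => f x - f' x with hd
  have hsub : ∀ a b : X → ℝ, K.Smo a → K.Smo b → K.Smo (fun x => a x - b x) := by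
    intro a b ha hb
    have h1 := (hS3'.2.1 (fun _ => (-1 : ℝ)) b (hS3'.2.2.1 (-1)) hb).2
    have h2 := (hS3'.2.1 a _ ha h1).1
    have e : (fun x => a x + -1 * b x) = fun x => a x - b x := by
      funext x; ring
    rw [← e]
    exact h2
  have hds : K.Smo d := hsub f f' hf.1 hf'.1
  -- products with the partition of unity
  have hψk : ∀ (k : Fin K.n) (ψ : X → ℝ), Measurable ψ → (∃ B : ℝ, ∀ x, |ψ x| ≤ B) →
      Measurable (fun x => χ k x * ψ x) ∧ (∃ B : ℝ, ∀ x, |χ k x * ψ x| ≤ B) ∧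
      ∀ x, x ∉ (K.e k).source → χ k x * ψ x = 0 := by
    rintro k ψ hm ⟨B, hB⟩
    refine ⟨(hχm k).mul hm, ⟨B, fun x => ?_⟩, fun x hx => ?_⟩
    · rw [abs_mul, abs_of_nonneg (hχ0 k x)]
      have h2 := mul_le_mul (hχle k x) (hB x) (abs_nonneg _) zero_le_one
      simpa using h2
    · have : χ k x = 0 := by
        by_contra hne
        exact hx (hχsupp k x hne).1
      rw [this, zero_mul]
  -- the functional
  set J : (X → ℝ) → (X → ℝ) → ℝ := fun φ ψ => ∑ k, ∫ y in (K.e k).target,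
    (χ k ((K.e k).symm y) * ψ ((K.e k).symm y)) * dens (K.lo k φ) (K.pot k g) y with hJ
  have hJint : ∀ φ, K.Smo φ → ∀ ψ, Measurable ψ → (∃ B : ℝ, ∀ x, |ψ x| ≤ B) → ∀ k,
      IntegrableOn (fun y => (χ k ((K.e k).symm y) * ψ ((K.e k).symm y)) *
        dens (K.lo k φ) (K.pot k g) y) (K.e k).target := by
    intro φ hφ ψ hm hb k
    obtain ⟨C, hC, hCC⟩ := hS5 X K φ hφ
    obtain ⟨m1, b1, v1⟩ := hψk k ψ hm hb
    exact (S7_scale K hS1 hS2 hS3 hC2 hg C hC.ne' (hCC C le_rfl).1 k m1 b1 v1).1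
  have hJglob : ∀ φ, K.Smo φ → ∀ C : ℝ, C ≠ 0 → (fun x => φ x / C) ∈ K.PS → ∀ ψ, Measurable ψ →
      (∃ B : ℝ, ∀ x, |ψ x| ≤ B) →
      J φ ψ = C * (∫ x, ψ x ∂K.Ms (fun x => φ x / C) g - ∫ x, ψ x ∂K.Ms (fun _ => 0) g) := by
    intro φ hφ C hC hφC ψ hm hb
    have := (S7_isM K hS1 hφC hg).1
    have := (S7_isM K hS1 h0 hg).1
    rw [S7_pou K (K.Ms (fun x => φ x / C) g) χ hχm hχ0 hχ1 hm hb,
      S7_pou K (K.Ms (fun _ => 0) g) χ hχm hχ0 hχ1 hm hb, ← Finset.sum_sub_distrib, Finset.mul_sum]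
    simp only [hJ]
    refine Finset.sum_congr rfl fun k _ => ?_
    obtain ⟨m1, b1, v1⟩ := hψk k ψ hm hb
    exact ((S7_scale K hS1 hS2 hS3 hC2 hg C hC hφC k m1 b1 v1).2).symm
  have hJchart : ∀ φ, K.Smo φ → ∀ ψ, Measurable ψ → (∃ B : ℝ, ∀ x, |ψ x| ≤ B) → ∀ i,
      (∀ x, x ∉ (K.e i).source → ψ x = 0) →
      J φ ψ = ∫ y in (K.e i).target, ψ ((K.e i).symm y) * dens (K.lo i φ) (K.pot i g) y := by
    intro φ hφ ψ hm hb i hv
    obtain ⟨C, hC, hCC⟩ := hS5 X K φ hφ
    rw [hJglob φ hφ C hC.ne' (hCC C le_rfl).1 ψ hm hb]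
    exact (S7_scale K hS1 hS2 hS3 hC2 hg C hC.ne' (hCC C le_rfl).1 i hm hb hv).2
  have hJadd : ∀ φ φ', K.Smo φ → K.Smo φ' → ∀ ψ, Measurable ψ → (∃ B : ℝ, ∀ x, |ψ x| ≤ B) →
      J (fun x => φ x + φ' x) ψ = J φ ψ + J φ' ψ := by
    intro φ φ' hφ hφ' ψ hm hb
    simp only [hJ]
    rw [← Finset.sum_add_distrib]
    refine Finset.sum_congr rfl fun k _ => ?_
    rw [← integral_add (hJint φ hφ ψ hm hb k) (hJint φ' hφ' ψ hm hb k)]
    refine setIntegral_congr_fun (K.e k).open_target.measurableSet fun y hy => ?_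
    rw [S7_dens_add K hC2 hφ hφ' k _ hy]
    ring
  have hJzero : ∀ ψ, J (fun _ => 0) ψ = 0 := by
    intro ψ
    simp only [hJ]
    refine Finset.sum_eq_zero fun k _ => ?_
    refine (setIntegral_congr_fun (K.e k).open_target.measurableSet fun y _ => ?_).trans
      (integral_zero _ _)
    rw [S7_dens_zero (K.lo k fun _ => 0) (K.pot k g) y (Eventually.of_forall fun z => rfl), mul_zero]
  have hsmul : ∀ i, K.Smo (fun x => χ i x * d x) := fun i => (hS3'.2.1 _ _ (hχs i) hds).2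
  have hJsum : ∀ ψ, Measurable ψ → (∃ B : ℝ, ∀ x, |ψ x| ≤ B) → ∀ s : Finset (Fin K.n),
      K.Smo (fun x => ∑ i ∈ s, χ i x * d x) ∧
      J (fun x => ∑ i ∈ s, χ i x * d x) ψ = ∑ i ∈ s, J (fun x => χ i x * d x) ψ := by
    intro ψ hm hb s
    classical
    induction s using Finset.induction_on with
    | empty =>
      simp only [Finset.sum_empty]
      exact ⟨hS3'.2.2.1 0, hJzero ψ⟩
    | insert a s ha ih =>
      have e : (fun x => ∑ i ∈ insert a s, χ i x * d x) =
          fun x => χ a x * d x + ∑ i ∈ s, χ i x * d x := by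
        funext x
        rw [Finset.sum_insert ha]
      rw [e, Finset.sum_insert ha, ← ih.2]
      exact ⟨(hS3'.2.1 _ _ (hsmul a) ih.1).1, hJadd _ _ (hsmul a) ih.1 ψ hm hb⟩
  have hhc := hcont h hh.1
  have hhm : Measurable h := hhc.measurable
  have hhb := hbdd h hhc
  -- left side
  have hL : (∫ x, h x ∂K.Ms f g) - ∫ x, h x ∂K.Ms f' g = J d h := by
    have := (S7_isM K hS1 hf hg).1
    have := (S7_isM K hS1 hf' hg).1
    rw [S7_pou K (K.Ms f g) χ hχm hχ0 hχ1 hhm hhb, S7_pou K (K.Ms f' g) χ hχm hχ0 hχ1 hhm hhb,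
      ← Finset.sum_sub_distrib]
    simp only [hJ]
    refine Finset.sum_congr rfl fun k _ => ?_
    obtain ⟨m1, b1, v1⟩ := hψk k h hhm hhb
    exact S7_diff K hS1 hS2 hC2 hf hf' hg k m1 b1 v1
  have hdc := hcont d hds
  -- right side
  have hR : (∫ x, d x ∂K.Ms h g) - ∫ x, d x ∂K.Ms (fun _ => 0) g =
      ∑ i, ∫ y in (K.e i).target, (χ i ((K.e i).symm y) * d ((K.e i).symm y)) *
        dens (K.lo i h) (K.pot i g) y := by
    have := (S7_isM K hS1 hh hg).1
    have := (S7_isM K hS1 h0 hg).1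
    rw [S7_pou K (K.Ms h g) χ hχm hχ0 hχ1 hdc.measurable (hbdd d hdc),
      S7_pou K (K.Ms (fun _ => 0) g) χ hχm hχ0 hχ1 hdc.measurable (hbdd d hdc),
      ← Finset.sum_sub_distrib]
    refine Finset.sum_congr rfl fun k _ => ?_
    obtain ⟨m1, b1, v1⟩ := hψk k d hdc.measurable (hbdd d hdc)
    have h1 := S7_diff K hS1 hS2 hC2 hh h0 hg k m1 b1 v1
    simp only [sub_zero] at h1
    exact h1
  have hdsum : d = fun x => ∑ i, χ i x * d x := by
    funext x
    rw [← Finset.sum_mul, hχ1 x, one_mul]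
  have hJd : J d h = ∑ i, J (fun x => χ i x * d x) h := by
    conv_lhs => rw [hdsum]
    exact (hJsum h hhm hhb Finset.univ).2
  rw [hL, hR, hJd]
  refine Finset.sum_congr rfl fun i _ => ?_
  -- the compact set carrying `χ i`
  set φ : X → ℝ := fun x => χ i x * d x with hφ
  set L : Set C2 := {y | nsq (y - K.c i) ≤ (3 / 4 * K.R i) ^ 2} with hLd
  have hRi := K.R_pos i
  have hnsq : Continuous fun y : C2 => nsq (y - K.c i) := by
    unfold nsq
    fun_prop
  have hLclosed : IsClosed L := isClosed_le hnsq continuous_const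
  have hLtarget : L ⊆ (K.e i).target := by
    intro y hy
    apply K.ball_sub i
    have h1 : nsq (y - K.c i) ≤ (3 / 4 * K.R i) ^ 2 := hy
    have h2 : (3 / 4 * K.R i) ^ 2 ≤ K.R i ^ 2 := by nlinarith
    exact h1.trans h2
  have hLcompact : IsCompact L := by
    refine Metric.isCompact_of_isClosed_isBounded hLclosed ?_
    refine (Metric.isBounded_iff_subset_closedBall (K.c i)).2 ⟨3 / 4 * K.R i, fun y hy => ?_⟩
    have h1 : ‖(y - K.c i).1‖ ^ 2 + ‖(y - K.c i).2‖ ^ 2 ≤ (3 / 4 * K.R i) ^ 2 := hy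
    rw [Metric.mem_closedBall, dist_eq_norm, Prod.norm_def]
    have h2 : (0 : ℝ) ≤ 3 / 4 * K.R i := by positivity
    apply max_le
    · exact le_of_sq_le_sq (by nlinarith [sq_nonneg ‖(y - K.c i).2‖]) h2
    · exact le_of_sq_le_sq (by nlinarith [sq_nonneg ‖(y - K.c i).1‖]) h2
  set A : Set X := (K.e i).symm '' L with hAdef
  have hAcompact : IsCompact A :=
    hLcompact.image_of_continuousOn ((K.e i).symm.continuousOn.mono (by simpa using hLtarget))
  have hAclosed : IsClosed A := hAcompact.isClosed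
  have hAsource : A ⊆ (K.e i).source := by
    rintro _ ⟨y, hy, rfl⟩
    exact (K.e i).map_target (hLtarget hy)
  have hφA : ∀ x, x ∉ A → φ x = 0 := by
    intro x hx
    have : χ i x = 0 := by
      by_contra hne
      obtain ⟨hxs, hxb⟩ := hχsupp i x hne
      exact hx ⟨K.e i x, show nsq (K.e i x - K.c i) ≤ (3 / 4 * K.R i) ^ 2 from le_of_lt hxb,
        (K.e i).left_inv hxs⟩
    rw [hφ]
    simp only
    rw [this, zero_mul]
  have hlozero : ∀ k, ∀ y ∈ (K.e k).target, (K.e k).symm y ∉ A →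
      dens (K.lo k φ) (K.pot k g) y = 0 := by
    intro k y hy hyA
    apply S7_dens_zero
    have h1 : ∀ᶠ z in 𝓝 y, (K.e k).symm z ∈ Aᶜ :=
      ((K.e k).symm.continuousAt (by simpa using hy)).eventually
        (hAclosed.isOpen_compl.mem_nhds hyA)
    filter_upwards [h1] with z hz
    exact hφA _ hz
  have hAm : MeasurableSet A := hAclosed.measurableSet
  have hφs : K.Smo φ := hsmul i
  have hJ1 : J φ h = J φ (A.indicator h) := by
    simp only [hJ]
    refine Finset.sum_congr rfl fun k _ => ?_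
    refine setIntegral_congr_fun (K.e k).open_target.measurableSet fun y hy => ?_
    by_cases hyA : (K.e k).symm y ∈ A
    · rw [indicator_of_mem hyA]
    · rw [hlozero k y hy hyA, mul_zero, mul_zero]
  have hJ2 : J φ (A.indicator h) =
      ∫ y in (K.e i).target, h ((K.e i).symm y) * dens (K.lo i φ) (K.pot i g) y := by
    rw [hJchart φ hφs (A.indicator h) (hhm.indicator hAm) ?_ i ?_]
    · refine setIntegral_congr_fun (K.e i).open_target.measurableSet fun y hy => ?_
      by_cases hyA : (K.e i).symm y ∈ A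
      · rw [indicator_of_mem hyA]
      · rw [hlozero i y hy hyA, mul_zero, mul_zero]
    · obtain ⟨B, hB⟩ := hhb
      refine ⟨B, fun x => ?_⟩
      by_cases hx : x ∈ A
      · rw [indicator_of_mem hx]
        exact hB x
      · rw [indicator_of_notMem hx, abs_zero]
        exact (abs_nonneg _).trans (hB x)
    · intro x hx
      exact indicator_of_notMem (fun hxA => hx (hAsource hxA)) _
  rw [hJ1, hJ2]
  -- local Stokes formula
  set F : C2 → ℝ := (K.e i).target.indicator (K.lo i φ) with hF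
  have hFL : ∀ y, y ∉ L → F y = 0 := by
    intro y hy
    by_cases hyt : y ∈ (K.e i).target
    · rw [hF, indicator_of_mem hyt]
      apply hφA
      rintro ⟨z, hz, hzy⟩
      have : z = y := by
        have h1 := congrArg (K.e i) hzy
        rw [(K.e i).right_inv (hLtarget hz), (K.e i).right_inv hyt] at h1
        exact h1
      exact hy (this ▸ hz)
    · rw [hF, indicator_of_notMem hyt]
  have hFts : tsupport F ⊆ L := by
    apply closure_minimal _ hLclosed
    intro y hy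
    by_contra hyL
    exact hy (hFL y hyL)
  have hFc : HasCompactSupport F := hLcompact.of_isClosed_subset (isClosed_tsupport F) hFts
  have hFeq : ∀ y ∈ (K.e i).target, F =ᶠ[𝓝 y] K.lo i φ := by
    intro y hy
    filter_upwards [(K.e i).open_target.mem_nhds hy] with z hz
    rw [hF, indicator_of_mem hz]
  have hFs : ContDiff ℝ ∞ F := by
    rw [contDiff_iff_contDiffAt]
    intro y
    by_cases hy : y ∈ (K.e i).target
    · exact ((hφs i).contDiffAt ((K.e i).open_target.mem_nhds hy)).congr_of_eventuallyEq (hFeq y hy)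
    · have hyL : y ∉ L := fun h => hy (hLtarget h)
      have h1 : F =ᶠ[𝓝 y] fun _ => 0 := by
        filter_upwards [hLclosed.isOpen_compl.mem_nhds hyL] with z hz
        exact hFL z hz
      exact contDiffAt_const.congr_of_eventuallyEq h1
  have hpots : ContDiffOn ℝ ∞ (K.pot i g) (K.e i).target := (K.ρ_smooth i).add (hg.1 i)
  have hst := hB7 (K.e i).target F (K.pot i g) (K.lo i h) (K.e i).open_target hFs hFc
    (hFts.trans hLtarget) hpots (hh.1 i)
  have hdensF : ∀ y ∈ (K.e i).target, dens F (K.pot i g) y = dens (K.lo i φ) (K.pot i g) y := by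
    intro y hy
    have h1 := hFeq y hy
    have h2 : fderiv ℝ F =ᶠ[𝓝 y] fderiv ℝ (K.lo i φ) := h1.fderiv
    have h3 : fderiv ℝ (fderiv ℝ F) y = fderiv ℝ (fderiv ℝ (K.lo i φ)) y := h2.fderiv_eq
    unfold dens hA hC hB hB' lap D2
    rw [h3]
  calc ∫ y in (K.e i).target, h ((K.e i).symm y) * dens (K.lo i φ) (K.pot i g) y
      = ∫ y in (K.e i).target, K.lo i h y * dens F (K.pot i g) y := by
        refine setIntegral_congr_fun (K.e i).open_target.measurableSet fun y hy => ?_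
        rw [hdensF y hy]
        rfl
    _ = ∫ y, K.lo i h y * dens F (K.pot i g) y := by
        apply setIntegral_eq_integral_of_forall_compl_eq_zero
        intro y hy
        have hyL : y ∉ L := fun h => hy (hLtarget h)
        rw [S7_dens_zero, mul_zero]
        filter_upwards [hLclosed.isOpen_compl.mem_nhds hyL] with z hz
        exact hFL z hz
    _ = ∫ y, F y * dens (K.lo i h) (K.pot i g) y := hst
    _ = ∫ y in (K.e i).target, F y * dens (K.lo i h) (K.pot i g) y := by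
        symm
        apply setIntegral_eq_integral_of_forall_compl_eq_zero
        intro y hy
        rw [hF, indicator_of_notMem hy, zero_mul]
    _ = ∫ y in (K.e i).target, (χ i ((K.e i).symm y) * d ((K.e i).symm y)) *
        dens (K.lo i h) (K.pot i g) y := by
        refine setIntegral_congr_fun (K.e i).open_target.measurableSet fun y hy => ?_
        rw [hF, indicator_of_mem hy]
        rfl

end MAP
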